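import Pool.Agent.Helper84.OB.Stmts

set_option autoImplicit false

universe u

open Set Pool.Agent.Helper84.BT Pool.Agent.Helper84.OB
open scoped Matroid

namespace Pool.Agent.Helper27.OB

theorem st_DP : ST_DP.{u} := by
  classical
  intro α _ M X Y C O x hP hCX hCK hCr hCn hCc hOC hxO hx
  have hXE := hP.hX.subset_ground
  have hYE := hP.hY.subset_ground
  have hfin : (Set.univ : Set (Set α)).Finite := Set.toFinite _
  let S : Set (Set α) := {O' | O' ⊆ O ∧ ∃ z ∈ O', z ∈ M.closure ((O' \ {z}) ∪ Y)}
  obtain ⟨P, hPS, hPmin⟩ := Set.exists_min_image S (fun T => T.ncard) (Set.toFinite S)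
    ⟨O, subset_rfl, x, hxO, hx⟩
  obtain ⟨hPO, z, hzP, hz⟩ := hPS
  have hPC : P ⊆ C := hPO.trans hOC
  have hPX : P ⊆ X := hPC.trans hCX
  have hPE : P ⊆ M.E := hPX.trans hXE
  have hCY : ∀ c ∈ C, c ∉ Y := fun c hc hcY => Set.disjoint_left.1 hCK hc ⟨hCX hc, hcY⟩
  have hall : ∀ y ∈ P, y ∈ M.closure ((P \ {y}) ∪ Y) := by
    intro y hy
    by_cases hyz : y = z
    · subst hyz; exact hz
    have hnot : z ∉ M.closure (((P \ {y}) \ {z}) ∪ Y) := by
      intro hcon
      have := hPmin (P \ {y}) ⟨sdiff_subset.trans hPO, z, ⟨hzP, fun h => hyz h.symm⟩, hcon⟩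
      have h2 := Set.ncard_sdiff_singleton_lt_of_mem hy (Set.toFinite P)
      omega
    have hin : z ∈ M.closure (insert y (((P \ {y}) \ {z}) ∪ Y)) := by
      refine M.closure_subset_closure ?_ hz
      intro t ht
      rcases ht with ht | ht
      · by_cases hty : t = y
        · subst hty; exact mem_insert _ _
        · exact Or.inr (Or.inl ⟨⟨ht.1, hty⟩, ht.2⟩)
      · exact Or.inr (Or.inr ht)
    have hex := Matroid.closure_exchange (M := M) ⟨hin, hnot⟩
    refine M.closure_subset_closure ?_ hex.1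
    intro t ht
    rcases ht with ht | ht | ht
    · subst ht; exact Or.inl ⟨hzP, fun h => hyz h.symm⟩
    · exact Or.inl ht.1
    · exact Or.inr ht
  have hcyc : IsCyclic M (P ∪ Y) := by
    rw [isCyclic_iff]
    intro t ht
    rcases ht with ht | ht
    · refine M.closure_subset_closure ?_ (hall t ht)
      intro s hs
      rcases hs with hs | hs
      · exact ⟨Or.inl hs.1, hs.2⟩
      · exact ⟨Or.inr hs, fun h => hCY t (hPC ht) (by rw [← show s = t from h]; exact hs)⟩
    · exact M.closure_subset_closure (sdiff_subset_sdiff_left subset_union_right)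
        (isCyclic_iff.1 hP.hY.2 t ht)
  have hPYE : P ∪ Y ⊆ M.E := union_subset hPE hYE
  have hsub : P ∪ Y ⊆ M.closure (P ∪ Y) := M.subset_closure _ hPYE
  refine ⟨M.closure (P ∪ Y), hcyc.isCyclicFlat_closure, subset_union_right.trans hsub,
    M.closure_subset_closure (union_subset_union_left _ hPO), ?_⟩
  by_contra hcon
  push Not at hcon
  set W := M.closure (P ∪ Y) with hW
  have hrW : rk M W = rk M (P ∪ Y) := rk_closure M _
  have hPYr : rk M (P ∪ Y) ≤ rk M Y + (P \ {z}).ncard := by
    have h1 := rk_union_le_add_ncard M Y (P \ {z})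
    have h2 := (mem_closure_iff_rk M (hPE hzP)).1 hz
    have h3 : insert z ((P \ {z}) ∪ Y) = P ∪ Y := by
      rw [← insert_union, insert_sdiff_singleton, insert_eq_of_mem hzP]
    rw [h3] at h2
    rw [h2, union_comm]
    exact h1
  have hPz : (P \ {z}).ncard + 1 = P.ncard := Set.ncard_sdiff_singleton_add_one hzP (Set.toFinite P)
  have hXW : rk M (X ∪ W) = rk M (X ∪ Y) := by
    apply le_antisymm
    · have : X ∪ W ⊆ M.closure (X ∪ Y) := by
        apply union_subset
        · exact subset_union_left.trans (M.subset_closure _ (union_subset hXE hYE))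
        · exact M.closure_subset_closure (union_subset_union_left _ hPX)
      have := rk_mono M this
      rwa [rk_closure] at this
    · exact rk_mono M (union_subset_union_right _ (subset_union_right.trans hsub))
  have hd := hP.dmin X W hP.hX hcyc.isCyclicFlat_closure (by omega)
  have hPK : rk M (P ∪ (X ∩ Y)) ≤ rk M (X ∩ W) := rk_mono M (by
    intro t ht
    rcases ht with ht | ht
    · exact ⟨hPX ht, hsub (Or.inl ht)⟩
    · exact ⟨ht.1, hsub (Or.inr ht.2)⟩)
  by_cases hPeq : P = C
  · have h1 : X ⊆ M.closure (C ∪ (X ∩ Y)) := by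
      have : C ∪ (X ∩ Y) ⊆ X := union_subset hCX inter_subset_left
      exact subset_closure_of_rk M this hXE hCr.ge
    have h2 : X ⊆ W := by
      rw [hW, hPeq]
      exact h1.trans (M.closure_subset_closure (union_subset_union_right _ inter_subset_right))
    have h3 : X ∩ W = X := inter_eq_self_of_subset_left h2
    rw [h3] at hcon hd
    have h4 : rk M (X ∪ W) = rk M W := by rw [union_eq_self_of_subset_left h2]
    have := hP.pos
    omega
  · obtain ⟨c, hcC, hcP⟩ := exists_of_ssubset (hPC.ssubset_of_ne hPeq)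
    have h1 := hCc c hcC
    have h2 := rk_union_le_add_ncard M (P ∪ (X ∩ Y)) ((C \ {c}) \ P)
    have h3 : (C \ {c}) ∪ (X ∩ Y) ⊆ (P ∪ (X ∩ Y)) ∪ ((C \ {c}) \ P) := by
      intro t ht
      rcases ht with ht | ht
      · by_cases htP : t ∈ P
        · exact Or.inl (Or.inl htP)
        · exact Or.inr ⟨ht, htP⟩
      · exact Or.inl (Or.inr ht)
    have h4 := rk_mono M h3
    have h5 : P ⊆ C \ {c} := fun t ht => ⟨hPC ht, fun h => hcP (by rw [← show t = c from h]; exact ht)⟩
    have h6 := Set.ncard_sdiff_add_ncard_of_subset h5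
    have h7 : (C \ {c}).ncard + 1 = C.ncard := Set.ncard_sdiff_singleton_add_one hcC (Set.toFinite C)
    omega

end Pool.Agent.Helper27.OB
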